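import Pool.Agent.TH262.FI.Fin

/-!
Self-avoiding walk on `ℤ^d`: Fisher's inequality `γ ≤ ν (2 - η)`.
-/

set_option autoImplicit false

open Filter Topology

namespace Pool.Agent.Results.MP_5e6e69_pr.FisherInequality

/-- `ω` is an `n`-step self-avoiding walk on `ℤ^d` started at the origin. -/
def IsSAW (d n : ℕ) (ω : Fin (n + 1) → Fin d → ℤ) : Prop :=
  ω 0 = 0 ∧ (∀ i : Fin n, ∑ k, |ω i.succ k - ω i.castSucc k| = 1) ∧ Function.Injective ω

/-- `C_n`: the number of `n`-step self-avoiding walks from the origin -/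
noncomputable def C (d n : ℕ) : ℕ := {ω | IsSAW d n ω}.ncard

/-- `C_n(z)`: the number of `n`-step self-avoiding walks from the origin to `z` -/
noncomputable def Cz (d n : ℕ) (z : Fin d → ℤ) : ℕ := {ω | IsSAW d n ω ∧ ω (Fin.last n) = z}.ncard

/-- the Euclidean norm -/
noncomputable def norm2 {d : ℕ} (z : Fin d → ℤ) : ℝ := Real.sqrt (∑ k, ((z k : ℤ) : ℝ) ^ 2)

/-- `⟨|ω(n)|^p⟩`, the average over the `n`-step self-avoiding walks -/
noncomputable def moment (d : ℕ) (p : ℝ) (n : ℕ) : ℝ :=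
  (∑ᶠ ω ∈ {ω : Fin (n + 1) → Fin d → ℤ | IsSAW d n ω}, norm2 (ω (Fin.last n)) ^ p) / (C d n : ℝ)

/-- `μ` is the connective constant -/
def IsMu (d : ℕ) (μ : ℝ) : Prop :=
  Tendsto (fun n : ℕ => (C d n : ℝ) ^ (1 / (n : ℝ))) atTop (𝓝 μ)

/-- `μ^(-n) C_n = n^(γ - 1 + o(1))` -/
def HasGamma (d : ℕ) (μ γ : ℝ) : Prop :=
  Tendsto (fun n : ℕ => Real.log ((C d n : ℝ) / μ ^ n) / Real.log n) atTop (𝓝 (γ - 1))

/-- `⟨|ω(n)|^p⟩ = n^(p ν + o(1))`; the exponent `ν` of the problem is the case `p = 2` -/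
def HasNu (d : ℕ) (p ν : ℝ) : Prop :=
  Tendsto (fun n : ℕ => Real.log (moment d p n) / Real.log n) atTop (𝓝 (p * ν))

/-- `∑_n μ^(-n) C_n(z)` converges for all but finitely many `z` and is `|z|^(-(d - 2 + η) + o(1))` -/
def HasEta (d : ℕ) (μ η : ℝ) : Prop :=
  (∀ᶠ z : Fin d → ℤ in cofinite, Summable fun n : ℕ => (Cz d n z : ℝ) / μ ^ n) ∧
  Tendsto (fun z : Fin d → ℤ => Real.log (∑' n : ℕ, (Cz d n z : ℝ) / μ ^ n) / Real.log (norm2 z))
    cofinite (𝓝 (-((d : ℝ) - 2 + η)))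

/-- **Theorem.** Let `d ≥ 1`, let `μ` be the connective constant of `ℤ^d` and `p > 0`. If the exponent
`ν` of the `p`-th moment of the end-to-end distance and the exponent `η` exist, then `1 ≤ ν (2 - η)`,
and `γ ≤ ν (2 - η)` if the exponent `γ` exists. -/
theorem result : ∀ d : ℕ, 1 ≤ d → ∀ μ : ℝ, IsMu d μ → ∀ p ν η : ℝ, 0 < p →
    HasNu d p ν → HasEta d μ η →
    1 ≤ ν * (2 - η) ∧ ∀ γ : ℝ, HasGamma d μ γ → γ ≤ ν * (2 - η) := by
  intro d hd μ hμ p ν η hp hν hη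
  have e : ∀ n : ℕ, moment d p n = Pool.Agent.TH262.FI.mom d p n := by
    intro n
    unfold moment Pool.Agent.TH262.FI.mom
    congr 1
    rw [← finsum_mem_coe_finset]
    have h : {ω : Fin (n + 1) → Fin d → ℤ | IsSAW d n ω} =
        (Pool.Agent.TH262.FI.S d n : Set (Fin (n + 1) → Fin d → ℤ)) := by
      ext ω
      rw [Finset.mem_coe, Pool.Agent.TH262.FI.mem_S]
      rfl
    rw [h]
    rfl
  refine Pool.Agent.TH262.FI.final hd hμ hp ?_ hη.1 hη.2
  refine hν.congr fun n => ?_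
  rw [e]

end Pool.Agent.Results.MP_5e6e69_pr.FisherInequality
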